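import Mathlib

namespace Pool.Agent.H.MP_dbd06c_co

open Polynomial

abbrev R := ℤ[X][X]

noncomputable def x : R := C X
noncomputable def y : R := X
noncomputable def e : R := x * y
noncomputable def s : R := x + y

noncomputable def h : ℕ → R
  | 0 => 1
  | n + 1 => x * h n + y ^ (n + 1)

lemma h_closed (n : ℕ) : (y - x) * h n = y ^ (n + 1) - x ^ (n + 1) := by
  induction n with
  | zero => simp [h]
  | succ n ih => rw [h]; linear_combination x * ih

lemma yx_ne : y - x ≠ 0 := X_sub_C_ne_zero _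

lemma h_mul (m n : ℕ) : h (m + 1) * h (n + 1) = h (m + n + 2) + e * (h m * h n) := by
  apply mul_left_cancel₀ (mul_ne_zero yx_ne yx_ne)
  have a := h_closed (m + 1)
  have b := h_closed (n + 1)
  have c := h_closed (m + n + 2)
  have a' := h_closed m
  have b' := h_closed n
  calc (y - x) * (y - x) * (h (m + 1) * h (n + 1))
      = ((y - x) * h (m + 1)) * ((y - x) * h (n + 1)) := by ring
    _ = (y - x) * ((y - x) * h (m + n + 2)) + e * (((y - x) * h m) * ((y - x) * h n)) := by
        rw [a, b, c, a', b', e]; ring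
    _ = _ := by ring

lemma h_one : h 1 = s := by simp [h, s]

lemma s_mul (n : ℕ) : s * h (n + 1) = h (n + 2) + e * h n := by
  have := h_mul 0 n
  rw [zero_add, h_one, zero_add] at this
  rw [this]; simp [h]

noncomputable def Pos : AddSubmonoid R := AddSubmonoid.closure {p | ∃ a n, p = e ^ a * h n}

lemma gen_mem (a n : ℕ) : e ^ a * h n ∈ Pos := AddSubmonoid.subset_closure ⟨a, n, rfl⟩

lemma e_mul {p : R} (hp : p ∈ Pos) : e * p ∈ Pos := by
  induction hp using AddSubmonoid.closure_induction with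
  | mem p hp =>
    obtain ⟨a, n, rfl⟩ := hp
    rw [← mul_assoc, ← pow_succ']
    exact gen_mem _ _
  | zero => simpa using Pos.zero_mem
  | add p q _ _ a b => rw [mul_add]; exact Pos.add_mem a b

lemma epow_mul (a : ℕ) {p : R} (hp : p ∈ Pos) : e ^ a * p ∈ Pos := by
  induction a with
  | zero => simpa using hp
  | succ a ih => rw [pow_succ', mul_assoc]; exact e_mul ih

lemma h_mem (n : ℕ) : h n ∈ Pos := by simpa using gen_mem 0 n

lemma hh_mem (m n : ℕ) : h m * h n ∈ Pos := by
  induction m generalizing n with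
  | zero => simpa [h] using h_mem n
  | succ m ih =>
    rcases n with _ | n
    · have : h 0 = 1 := rfl
      rw [this, mul_one]; exact h_mem _
    · rw [h_mul]; exact Pos.add_mem (h_mem _) (e_mul (ih n))

lemma mul_mem {p q : R} (hp : p ∈ Pos) (hq : q ∈ Pos) : p * q ∈ Pos := by
  induction hp using AddSubmonoid.closure_induction with
  | mem p hp =>
    obtain ⟨a, n, rfl⟩ := hp
    induction hq using AddSubmonoid.closure_induction with
    | mem q hq =>
      obtain ⟨b, m, rfl⟩ := hq
      have : e ^ a * h n * (e ^ b * h m) = e ^ (a + b) * (h n * h m) := by ring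
      rw [this]; exact epow_mul _ (hh_mem _ _)
    | zero => simpa using Pos.zero_mem
    | add p q _ _ a b => rw [mul_add]; exact Pos.add_mem a b
  | zero => simpa using Pos.zero_mem
  | add p q _ _ a b => rw [add_mul]; exact Pos.add_mem a b

/-- coefficient of `x^i y^j`. -/
noncomputable def cf (p : R) (i j : ℕ) : ℤ := (p.coeff j).coeff i

lemma cf_h (n i j : ℕ) : cf (h n) i j = if i + j = n then 1 else 0 := by
  induction n generalizing i with
  | zero =>
    simp only [cf, h, coeff_one]
    split_ifs <;> simp_all [coeff_one] <;> omega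
  | succ n ih =>
    simp only [cf, h, x, y, coeff_add, coeff_C_mul, coeff_X_pow] at ih ⊢
    rcases i with _ | i
    · simp only [mul_coeff_zero, coeff_X_zero, zero_mul, zero_add]
      split_ifs <;> simp
    · rw [coeff_X_mul, ih]
      split_ifs <;> simp [coeff_one] <;> omega

lemma cf_gen (a n i j : ℕ) :
    cf (e ^ a * h n) i j = if a ≤ i ∧ a ≤ j ∧ i + j = 2 * a + n then 1 else 0 := by
  have : e ^ a * h n = C (X ^ a) * (X ^ a * h n) := by
    simp only [e, x, y, mul_pow, map_pow]; ring
  have h2 := cf_h n (i - a) (j - a)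
  simp only [cf] at h2 ⊢
  rw [this, coeff_C_mul, coeff_X_pow_mul', coeff_X_pow_mul']
  by_cases h1 : a ≤ i
  · by_cases h3 : a ≤ j
    · rw [if_pos h1, if_pos h3, h2]
      split_ifs <;> first | rfl | omega
    · simp [h3]
  · simp [h1]

lemma cf_mono {p : R} (hp : p ∈ Pos) (i j : ℕ) (hij : j + 1 ≤ i) :
    cf p (i + 1) j ≤ cf p i (j + 1) := by
  induction hp using AddSubmonoid.closure_induction with
  | mem p hp =>
    obtain ⟨a, n, rfl⟩ := hp
    rw [cf_gen, cf_gen]
    split_ifs <;> first | omega | simp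
  | zero => simp [cf]
  | add p q _ _ a b => simp only [cf, coeff_add] at *; omega

/-! dense lists in the basis `e^a h n` -/

noncomputable def evR : ℕ → List ℤ → R
  | _, [] => 0
  | k, c :: r => (c : R) * h k + evR (k + 1) r

noncomputable def ev : List (List ℤ) → R
  | [] => 0
  | r :: L => evR 0 r + e * ev L

def addR : List ℤ → List ℤ → List ℤ
  | [], b => b
  | a, [] => a
  | c :: a, d :: b => (c + d) :: addR a b

def add2 : List (List ℤ) → List (List ℤ) → List (List ℤ)
  | [], b => b
  | a, [] => a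
  | c :: a, d :: b => addR c d :: add2 a b

lemma evR_add (k : ℕ) (a b : List ℤ) : evR k (addR a b) = evR k a + evR k b := by
  induction a generalizing k b with
  | nil => simp [addR, evR]
  | cons c a ih =>
    cases b with
    | nil => simp [addR, evR]
    | cons d b => simp only [addR, evR, ih]; push_cast; ring

lemma ev_add (a b : List (List ℤ)) : ev (add2 a b) = ev a + ev b := by
  induction a generalizing b with
  | nil => simp [add2, ev]
  | cons c a ih =>
    cases b with
    | nil => simp [add2, ev]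
    | cons d b => simp only [add2, ev, ih, evR_add]; ring

def smul2 (c : ℤ) (L : List (List ℤ)) : List (List ℤ) := L.map fun r => r.map fun d => c * d

lemma evR_smul (c : ℤ) (k : ℕ) (a : List ℤ) :
    evR k (a.map fun d => c * d) = (c : R) * evR k a := by
  induction a generalizing k with
  | nil => simp [evR]
  | cons d a ih => simp only [List.map_cons, evR, ih]; push_cast; ring

lemma ev_smul (c : ℤ) (L : List (List ℤ)) : ev (smul2 c L) = (c : R) * ev L := by
  induction L with
  | nil => simp [smul2, ev]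
  | cons r L ih =>
    simp only [smul2, List.map_cons, ev, evR_smul] at ih ⊢
    rw [ih]; ring

lemma evR_s (k : ℕ) (a : List ℤ) : s * evR (k + 1) a = evR (k + 2) a + e * evR k a := by
  induction a generalizing k with
  | nil => simp [evR]
  | cons d a ih =>
    simp only [evR]
    linear_combination (d : R) * s_mul k + ih (k + 1)

lemma evR_s0 (a : List ℤ) : s * evR 0 a = evR 0 (0 :: a) + e * evR 0 a.tail := by
  cases a with
  | nil => simp [evR]
  | cons d a =>
    simp only [evR, List.tail_cons, zero_add, h_one]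
    have : h 0 = 1 := rfl
    rw [this]
    have := evR_s 0 a
    simp only [zero_add] at this
    push_cast
    linear_combination this

def mulS (L : List (List ℤ)) : List (List ℤ) :=
  add2 (L.map fun r => 0 :: r) ([] :: L.map List.tail)

lemma ev_mulS (L : List (List ℤ)) : ev (mulS L) = s * ev L := by
  have : ev (L.map fun r => 0 :: r) + e * ev (L.map List.tail) = s * ev L := by
    induction L with
    | nil => simp [ev]
    | cons r L ih =>
      simp only [List.map_cons, ev]
      linear_combination e * ih - evR_s0 r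
  rw [mulS, ev_add, ← this]
  simp [ev, evR]

noncomputable def gR : List ℤ → R
  | [] => 0
  | c :: r => (c : R) + s * gR r

noncomputable def gv : List (List ℤ) → R
  | [] => 0
  | r :: G => gR r + e * gv G

def mulRow : List ℤ → List (List ℤ) → List (List ℤ)
  | [], _ => []
  | c :: r, L => add2 (smul2 c L) (mulS (mulRow r L))

def mulG : List (List ℤ) → List (List ℤ) → List (List ℤ)
  | [], _ => []
  | r :: G, L => add2 (mulRow r L) ([] :: mulG G L)

lemma ev_mulRow (r : List ℤ) (L : List (List ℤ)) : ev (mulRow r L) = gR r * ev L := by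
  induction r with
  | nil => simp [mulRow, ev, gR]
  | cons c r ih => simp only [mulRow, ev_add, ev_smul, ev_mulS, ih, gR]; ring

lemma ev_mulG (G L : List (List ℤ)) : ev (mulG G L) = gv G * ev L := by
  induction G with
  | nil => simp [mulG, ev, gv]
  | cons r G ih => simp only [mulG, ev_add, ev_mulRow, ev, evR, ih, gv]; ring

def mulGn (G : List (List ℤ)) : ℕ → List (List ℤ) → List (List ℤ)
  | 0, L => L
  | n + 1, L => mulG G (mulGn G n L)

lemma ev_mulGn (G : List (List ℤ)) (n : ℕ) (L : List (List ℤ)) :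
    ev (mulGn G n L) = gv G ^ n * ev L := by
  induction n with
  | zero => simp [mulGn]
  | succ n ih => simp only [mulGn, ev_mulG, ih]; ring

def nn (L : List (List ℤ)) : Bool := L.all fun r => r.all fun c => decide (0 ≤ c)

lemma evR_pos (k : ℕ) (a : List ℤ) (ha : (a.all fun c => decide (0 ≤ c)) = true) :
    evR k a ∈ Pos := by
  induction a generalizing k with
  | nil => exact Pos.zero_mem
  | cons c a ih =>
    simp only [List.all_cons, Bool.and_eq_true, decide_eq_true_eq] at ha
    refine Pos.add_mem ?_ (ih _ ha.2)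
    obtain ⟨m, rfl⟩ := Int.eq_ofNat_of_zero_le ha.1
    have := Pos.nsmul_mem (h_mem k) m
    simpa using this

lemma ev_pos (L : List (List ℤ)) (hL : nn L = true) : ev L ∈ Pos := by
  induction L with
  | nil => exact Pos.zero_mem
  | cons r L ih =>
    simp only [nn, List.all_cons, Bool.and_eq_true] at hL
    exact Pos.add_mem (evR_pos _ _ hL.1) (e_mul (ih hL.2))

def Ga : List (List ℤ) := [[1, 1, 2], [-3, 2], [4]]
def Gw : List (List ℤ) := [[1, 2, 5, 8, 4], [-6, -14, 0, 8], [1, 16, 20], [24, 32], [16]]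
def Gx : List (List ℤ) := [[2, 4, 10, 12, 8], [-12, -16, -8, 16], [18, 12, 40], [-16, 48], [32]]
def Gap : List (List ℤ) := [[1, 1, 2, 2], [-3, -4, 2], [0, 4], [4]]
def GX : List (List ℤ) :=
  [[2, 4, 10, 14, 10, 4], [-12, -22, -12, 0, 8], [14, 30, 18, 20], [12, 12, 32], [-16, 16]]
def GY : List (List ℤ) := [[2, 2, 4, 2], [-6, -2, 2], [4, 4]]
def G1 : List (List ℤ) := [[1]]

def chk (S : List (List ℤ)) : Bool :=
  (List.range 7).all fun i => (List.range 4).all fun j => (List.range 4).all fun k =>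
    if 3 ≤ i + 2 * j + 2 * k ∧ i + 2 * j + 2 * k ≤ 6 then
      nn (mulG S (mulGn Ga i (mulGn Gw j (mulGn Gx k [[1]])))) else true

lemma chk_G1 : chk G1 = true := by decide +kernel
lemma chk_Gap : chk Gap = true := by decide +kernel
lemma chk_GX : chk GX = true := by decide +kernel
lemma chk_GY : chk GY = true := by decide +kernel

noncomputable def mon (i j k : ℕ) : R := gv Ga ^ i * (gv Gw ^ j * gv Gx ^ k)

lemma base {S : List (List ℤ)} (hS : chk S = true) (i j k : ℕ) (h1 : 3 ≤ i + 2 * j + 2 * k)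
    (h2 : i + 2 * j + 2 * k ≤ 6) : gv S * mon i j k ∈ Pos := by
  simp only [chk, List.all_eq_true, List.mem_range] at hS
  have := hS i (by omega) j (by omega) k (by omega)
  rw [if_pos ⟨h1, h2⟩] at this
  have := ev_pos _ this
  rw [ev_mulG, ev_mulGn, ev_mulGn, ev_mulGn] at this
  have h1 : ev [[1]] = 1 := by simp [ev, evR, h]
  rwa [h1, mul_one] at this

lemma gv_G1 : gv G1 = 1 := by simp [gv, gR, G1]

lemma mon_pos {S : List (List ℤ)} (hS : chk S = true) (w : ℕ) :
    ∀ i j k : ℕ, i + 2 * j + 2 * k = w → 3 ≤ w → gv S * mon i j k ∈ Pos := by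
  induction w using Nat.strong_induction_on with
  | _ w ih =>
    intro i j k hw h3
    by_cases h6 : w ≤ 6
    · exact base hS i j k (by omega) (by omega)
    · have step : ∀ a b c, a ≤ i → b ≤ j → c ≤ k → 3 ≤ a + 2 * b + 2 * c →
          a + 2 * b + 2 * c ≤ 4 → gv S * mon i j k ∈ Pos := by
        intro a b c ha hb hc g1 g2
        obtain ⟨i, rfl⟩ := Nat.exists_eq_add_of_le ha
        obtain ⟨j, rfl⟩ := Nat.exists_eq_add_of_le hb
        obtain ⟨k, rfl⟩ := Nat.exists_eq_add_of_le hc
        have p1 := base chk_G1 a b c g1 (by omega)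
        have p2 := ih _ (by omega) i j k rfl (by omega)
        have := mul_mem p1 p2
        rw [gv_G1] at this
        convert this using 1
        simp only [mon]; ring
      by_cases c1 : 3 ≤ i
      · exact step 3 0 0 c1 (by omega) (by omega) (by omega) (by omega)
      · by_cases c2 : 2 ≤ j
        · exact step 0 2 0 (by omega) c2 (by omega) (by omega) (by omega)
        · exact step 0 0 2 (by omega) (by omega) (by omega) (by omega) (by omega)

/-- nonnegative combinations of monomials of weight `w - 2`. -/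
noncomputable def M (w : ℕ) : AddSubmonoid R :=
  AddSubmonoid.closure {p | ∃ i j k, i + 2 * j + 2 * k + 2 = w ∧ p = mon i j k}

lemma M_mul {w : ℕ} {p : R} (hp : p ∈ M w) (a b c : ℕ) :
    mon a b c * p ∈ M (w + (a + 2 * b + 2 * c)) := by
  induction hp using AddSubmonoid.closure_induction with
  | mem p hp =>
    obtain ⟨i, j, k, h1, rfl⟩ := hp
    refine AddSubmonoid.subset_closure ⟨a + i, b + j, c + k, by omega, ?_⟩
    simp only [mon]; ring
  | zero => simpa using (M _).zero_mem
  | add p q _ _ a b => rw [mul_add]; exact (M _).add_mem a b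

lemma M_pos {S : List (List ℤ)} (hS : chk S = true) {w : ℕ} (hw : 5 ≤ w) {p : R} (hp : p ∈ M w) :
    gv S * p ∈ Pos := by
  induction hp using AddSubmonoid.closure_induction with
  | mem p hp =>
    obtain ⟨i, j, k, h1, rfl⟩ := hp
    exact mon_pos hS _ i j k rfl (by omega)
  | zero => simpa using Pos.zero_mem
  | add p q _ _ a b => rw [mul_add]; exact Pos.add_mem a b

def u {A : Type*} [CommRing A] (q : A) : A := 1 + q + 2 * q ^ 2
def dd {A : Type*} [CommRing A] (q : A) : A := u q ^ 2 + 4 * q ^ 3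
def u' {A : Type*} [CommRing A] (q : A) : A := u q + 2 * q ^ 3

def PQ {A : Type*} [CommRing A] (q : A) : ℕ → A × A
  | 0 => (1, 0)
  | t + 1 => (u q * (PQ q t).1 + dd q * (PQ q t).2, (PQ q t).1 + u q * (PQ q t).2)

def Fq {A : Type*} [CommRing A] (q : A) : ℕ → A
  | 0 => 1
  | 1 => 1
  | n + 2 => (1 + q + 2 * q ^ 2) * Fq q (n + 1) + q ^ 3 * Fq q n

lemma Fq_PQ {A : Type*} [CommRing A] (q : A) (t : ℕ) :
    2 ^ t * Fq q (t + 1) = (PQ q t).1 + u' q * (PQ q t).2 := by
  induction t using Nat.twoStepInduction with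
  | zero => simp [Fq, PQ]
  | one => simp only [Fq, PQ, u', u, dd]; ring
  | more t h0 h1 =>
    rw [show t + 2 + 1 = (t + 1) + 2 by omega, Fq]
    simp only [PQ, u', u, dd] at h0 h1 ⊢
    linear_combination (2 * (1 + q + 2 * q ^ 2)) * h1 + (4 * q ^ 3) * h0

lemma gv_Ga : gv Ga = u x * u y := by
  simp only [gv, gR, Ga, u, s, e]; push_cast; ring
lemma gv_Gw : gv Gw = dd x * dd y := by
  simp only [gv, gR, Gw, dd, u, s, e]; push_cast; ring
lemma gv_Gx : gv Gx = u x ^ 2 * dd y + dd x * u y ^ 2 := by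
  simp only [gv, gR, Gx, dd, u, s, e]; push_cast; ring
lemma gv_Gap : gv Gap = u' x * u' y := by
  simp only [gv, gR, Gap, u', u, s, e]; push_cast; ring
lemma gv_GX : gv GX = u x * u' x * dd y + dd x * (u y * u' y) := by
  simp only [gv, gR, GX, dd, u', u, s, e]; push_cast; ring
lemma gv_GY : gv GY = u x * u' y + u' x * u y := by
  simp only [gv, gR, GY, u', u, s, e]; push_cast; ring

lemma inv (t : ℕ) : ∃ E0 ∈ M (t + 2), ∃ E1 ∈ M (t + 1), ∃ O0 ∈ M (t + 1), ∃ O1 ∈ M t,
    (PQ x t).1 * (PQ y t).1 = E0 ∧ (PQ x t).2 * (PQ y t).2 = E1 ∧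
    (PQ x t).1 * (PQ y t).2 = u x * O0 + u y * dd x * O1 ∧
    (PQ x t).2 * (PQ y t).1 = u y * O0 + u x * dd y * O1 := by
  induction t with
  | zero =>
    refine ⟨1, AddSubmonoid.subset_closure ⟨0, 0, 0, rfl, by simp [mon]⟩, 0, (M _).zero_mem,
      0, (M _).zero_mem, 0, (M _).zero_mem, ?_⟩
    simp [PQ]
  | succ t ih =>
    obtain ⟨E0, a0, E1, a1, O0, b0, O1, b1, h1, h2, h3, h4⟩ := ih
    have m100 : mon 1 0 0 = u x * u y := by simp [mon, gv_Ga]
    have m010 : mon 0 1 0 = dd x * dd y := by simp [mon, gv_Gw]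
    have m001 : mon 0 0 1 = u x ^ 2 * dd y + dd x * u y ^ 2 := by simp [mon, gv_Gx]
    have m110 : mon 1 1 0 = u x * u y * (dd x * dd y) := by simp [mon, gv_Ga, gv_Gw]
    refine ⟨mon 1 0 0 * E0 + mon 0 1 0 * E1 + mon 0 0 1 * O0 + (mon 1 1 0 * O1 + mon 1 1 0 * O1),
      (M _).add_mem ((M _).add_mem ((M _).add_mem (M_mul a0 1 0 0) (M_mul a1 0 1 0))
        (M_mul b0 0 0 1)) ((M _).add_mem (M_mul b1 1 1 0) (M_mul b1 1 1 0)),
      E0 + mon 1 0 0 * E1 + (mon 1 0 0 * O0 + mon 1 0 0 * O0) + mon 0 0 1 * O1,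
      (M _).add_mem ((M _).add_mem ((M _).add_mem a0 (M_mul a1 1 0 0))
        ((M _).add_mem (M_mul b0 1 0 0) (M_mul b0 1 0 0))) (M_mul b1 0 0 1),
      E0 + mon 1 0 0 * O0 + mon 0 1 0 * O1,
      (M _).add_mem ((M _).add_mem a0 (M_mul b0 1 0 0)) (M_mul b1 0 1 0),
      E1 + O0 + mon 1 0 0 * O1,
      (M _).add_mem ((M _).add_mem a1 b0) (M_mul b1 1 0 0), ?_⟩
    simp only [PQ, m100, m010, m001, m110]
    refine ⟨?_, ?_, ?_, ?_⟩
    · linear_combination (u x * u y) * h1 + (dd x * dd y) * h2 + (u x * dd y) * h3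
        + (dd x * u y) * h4
    · linear_combination h1 + (u x * u y) * h2 + (u y) * h3 + (u x) * h4
    · linear_combination (u x) * h1 + (dd x * u y) * h2 + (u x * u y) * h3 + (dd x) * h4
    · linear_combination (u y) * h1 + (u x * dd y) * h2 + (dd y) * h3 + (u x * u y) * h4

theorem FF_pos (t : ℕ) (ht : 5 ≤ t) : 4 ^ t * (Fq x (t + 1) * Fq y (t + 1)) ∈ Pos := by
  obtain ⟨E0, a0, E1, a1, O0, b0, O1, b1, h1, h2, h3, h4⟩ := inv t
  have := Pos.add_mem (Pos.add_mem (Pos.add_mem (M_pos chk_G1 (by omega) a0)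
    (M_pos chk_Gap (by omega) a1)) (M_pos chk_GY (by omega) b0)) (M_pos chk_GX (by omega) b1)
  convert this using 1
  rw [gv_G1, gv_Gap, gv_GY, gv_GX]
  have e4 : (4 : R) ^ t = 2 ^ t * 2 ^ t := by rw [← mul_pow]; norm_num
  calc 4 ^ t * (Fq x (t + 1) * Fq y (t + 1))
      = (2 ^ t * Fq x (t + 1)) * (2 ^ t * Fq y (t + 1)) := by rw [e4]; ring
    _ = _ := by
      rw [Fq_PQ, Fq_PQ]
      linear_combination h1 + (u' x * u' y) * h2 + u' y * h3 + u' x * h4

lemma Fq_map {A B : Type*} [CommRing A] [CommRing B] (φ : A →+* B) (q : A) (n : ℕ) :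
    φ (Fq q n) = Fq (φ q) n := by
  induction n using Nat.twoStepInduction with
  | zero => simp [Fq]
  | one => simp [Fq]
  | more n h0 h1 => simp [Fq, h0, h1, map_ofNat]

theorem lc (t : ℕ) (ht : 5 ≤ t) (i j : ℕ) (hij : j + 1 ≤ i) :
    (Fq (X : ℤ[X]) (t + 1)).coeff (i + 1) * (Fq (X : ℤ[X]) (t + 1)).coeff j ≤
      (Fq (X : ℤ[X]) (t + 1)).coeff i * (Fq (X : ℤ[X]) (t + 1)).coeff (j + 1) := by
  have h0 := cf_mono (FF_pos t ht) i j hij
  have hx : Fq x (t + 1) = C (Fq (X : ℤ[X]) (t + 1)) := (Fq_map C X _).symm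
  have hy : Fq y (t + 1) = (Fq (X : ℤ[X]) (t + 1)).map C := by
    have := Fq_map (mapRingHom (C : ℤ →+* ℤ[X])) X (t + 1)
    simp only [coe_mapRingHom, map_X] at this
    exact this.symm
  have e4 : (4 : R) ^ t = C (C (4 ^ t)) := by simp [map_ofNat]
  rw [hx, hy, e4] at h0
  simp only [cf, coeff_C_mul, coeff_map, coeff_mul_C] at h0
  exact le_of_mul_le_mul_left h0 (by positivity)

end Pool.Agent.H.MP_dbd06c_co
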